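import Pool.Agent.H706R2.Mah.Defs

/-!
# T12b: the limit `ε → 0+`
-/

namespace Pool.Agent.H706R2.Mah

open MeasureTheory Real Set Filter Topology
open scoped RealInnerProductSpace ENNReal

variable {n : ℕ}

theorem T12b_gauss_fin (n : ℕ) (R : ℝ) (Q : Set (E n)) (hne : Q.Nonempty)
    (hR : ∀ x ∈ Q, ‖x‖ ≤ R) :
    ∫⁻ x : E n, ENNReal.ofReal (Real.exp (-(Metric.infDist x Q ^ 2 / (2 * 1)))) ≠ ∞ := by
  have hint : Integrable (fun x : E n => Real.exp (R ^ 2 / 2) * Real.exp (-(1 / 4) * ‖x‖ ^ 2)) := by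
    have h1 := GaussianFourier.integrable_cexp_neg_mul_sq_norm_add (V := E n) (b := ((1 / 4 : ℝ) : ℂ))
      (by simp) 0 0
    have h2 := h1.norm
    have h3 : (fun x : E n => ‖Complex.exp (-((1 / 4 : ℝ) : ℂ) * ((‖x‖ : ℝ) : ℂ) ^ 2
        + 0 * ((⟪(0 : E n), x⟫ : ℝ) : ℂ))‖) = fun x : E n => Real.exp (-(1 / 4) * ‖x‖ ^ 2) := by
      funext x
      rw [Complex.norm_exp]
      congr 1
      simp
      norm_cast
    rw [h3] at h2
    exact h2.const_mul _
  have hfin : ∫⁻ x : E n, ENNReal.ofReal (Real.exp (R ^ 2 / 2) * Real.exp (-(1 / 4) * ‖x‖ ^ 2)) ≠ ∞ := by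
    have := hint.lintegral_lt_top
    exact this.ne
  refine ne_top_of_le_ne_top hfin ?_
  refine lintegral_mono fun x => ENNReal.ofReal_le_ofReal ?_
  rw [← Real.exp_add]
  refine Real.exp_le_exp.2 ?_
  set d := Metric.infDist x Q with hd
  have hd0 : 0 ≤ d := Metric.infDist_nonneg
  have hx : ‖x‖ ≤ d + R := by
    refine le_of_forall_pos_le_add fun e he => ?_
    obtain ⟨y, hy, hxy⟩ := (Metric.infDist_lt_iff hne (x := x) (r := d + e)).1 (by linarith)
    have h1 : ‖x‖ ≤ ‖y‖ + dist x y := by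
      rw [dist_eq_norm]
      have := norm_add_le y (x - y)
      simpa using this
    have := hR y hy
    linarith
  have hx0 := norm_nonneg x
  have hsq : ‖x‖ ^ 2 ≤ 2 * d ^ 2 + 2 * R ^ 2 := by
    nlinarith [sq_nonneg (d - R), pow_le_pow_left₀ hx0 hx 2]
  linarith

/-- T12b. The limit `ε → 0`. -/
theorem T12b_limit (Q : Set (E n)) (hQc : Convex ℝ Q) (hQ : IsCompact Q) (hne : Q.Nonempty) :
    Tendsto (fun ε : ℝ => ∫⁻ x : E n,
      ENNReal.ofReal (Real.exp (-(Metric.infDist x Q ^ 2 / (2 * ε))))) (𝓝[>] 0)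
      (𝓝 (volume Q)) := by
  obtain ⟨R, hR⟩ := hQ.isBounded.exists_norm_le
  have hvol : volume Q = ∫⁻ x : E n, Q.indicator (fun _ => (1 : ℝ≥0∞)) x := by
    rw [lintegral_indicator hQ.measurableSet, setLIntegral_one]
  rw [hvol]
  refine tendsto_lintegral_filter_of_dominated_convergence
    (fun x : E n => ENNReal.ofReal (Real.exp (-(Metric.infDist x Q ^ 2 / (2 * 1))))) ?_ ?_
    (T12b_gauss_fin n R Q hne hR) ?_
  · refine Filter.Eventually.of_forall fun ε => ?_
    refine ENNReal.measurable_ofReal.comp (Real.measurable_exp.comp ?_)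
    exact ((((Metric.continuous_infDist_pt Q).pow 2).div_const _).neg).measurable
  · have h1 : ∀ᶠ ε : ℝ in 𝓝[>] 0, ε ∈ Ioo (0 : ℝ) 1 := Ioo_mem_nhdsGT one_pos
    filter_upwards [h1] with ε hε
    refine Filter.Eventually.of_forall fun x => ?_
    refine ENNReal.ofReal_le_ofReal (Real.exp_le_exp.2 ?_)
    have h2 : Metric.infDist x Q ^ 2 / (2 * 1) ≤ Metric.infDist x Q ^ 2 / (2 * ε) := by
      refine div_le_div_of_nonneg_left (sq_nonneg _) (by linarith [hε.1]) (by linarith [hε.2])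
    linarith
  · refine Filter.Eventually.of_forall fun x => ?_
    by_cases hx : x ∈ Q
    · have h0 : Metric.infDist x Q = 0 := Metric.infDist_zero_of_mem hx
      simp [h0, hx]
    · have hpos : 0 < Metric.infDist x Q :=
        (hQ.isClosed.notMem_iff_infDist_pos hne).1 hx
      rw [indicator_of_notMem hx]
      have h1 : Tendsto (fun ε : ℝ => Metric.infDist x Q ^ 2 / (2 * ε)) (𝓝[>] 0) atTop := by
        have h2 : Tendsto (fun ε : ℝ => ε⁻¹) (𝓝[>] 0) atTop := tendsto_inv_nhdsGT_zero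
        have h3 : Tendsto (fun ε : ℝ => (Metric.infDist x Q ^ 2 / 2) * ε⁻¹) (𝓝[>] 0) atTop :=
          h2.const_mul_atTop (by positivity)
        refine h3.congr fun ε => ?_
        rw [div_mul_eq_div_div, div_eq_mul_inv (_ / _) ε]
      have h4 : Tendsto (fun ε : ℝ => Real.exp (-(Metric.infDist x Q ^ 2 / (2 * ε)))) (𝓝[>] 0)
          (𝓝 0) := Real.tendsto_exp_neg_atTop_nhds_zero.comp h1
      have h5 := ENNReal.tendsto_ofReal h4
      simpa using h5

end Pool.Agent.H706R2.Mah
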